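import Pool.Agent.MP_3ee8cb_gt.DQK.Ang
import Pool.Agent.MP_3ee8cb_gt.DLJ.Alg
import Pool.Agent.MP_3ee8cb_gt.DQ.Spec

/-! The Jacobian estimate with the constant `4 / (n - 1)`. -/

namespace Pool.Agent.MP_3ee8cb_gt.DQK

open Set MeasureTheory CR DLJ
open scoped RealInnerProductSpace

/-- The pointwise inequality, in coordinates. -/
theorem alg_pt {ι : Type*} [Fintype ι] (r x z : ι → ℝ) (c ε : ℝ) (hr : ∀ i, 0 < r i)
    (hx : ∑ i, x i ^ 2 = 1) (hc : 1 ≤ c) (hzx : ∑ i, z i * x i = 0)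
    (hz : ∑ i, z i ^ 2 ≤ ε ^ 2 * (c - 1)) :
    ∑ i, r i ^ 2 * x i ^ 2 - ε ^ 2 / 8 * ∑ i, ∑ j, G (r i) (r j) (x i) (x j) ≤
      c * ∑ i, r i ^ 2 * x i ^ 2 + ∑ i, r i ^ 2 * (z i * x i) := by
  classical
  obtain ⟨a, ha⟩ : ∃ a, a = ∑ i, r i ^ 2 * x i ^ 2 := ⟨_, rfl⟩
  have a0 : 0 ≤ a := ha ▸ Finset.sum_nonneg fun i _ => by positivity
  have h1 : ∑ i, r i ^ 2 * (z i * x i) = ∑ i, z i * ((r i ^ 2 - a) * x i) := by
    have : ∀ i, z i * ((r i ^ 2 - a) * x i) = r i ^ 2 * (z i * x i) - a * (z i * x i) :=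
      fun i => by ring
    simp only [this, Finset.sum_sub_distrib, ← Finset.mul_sum, hzx, mul_zero, sub_zero]
  have h2 : 2 * ∑ i, ((r i ^ 2 - a) * x i) ^ 2 =
      ∑ i, ∑ j, (r i ^ 2 - r j ^ 2) ^ 2 * (x i ^ 2 * x j ^ 2) := by
    have e1 : ∀ i, ((r i ^ 2 - a) * x i) ^ 2 =
        r i ^ 4 * x i ^ 2 - 2 * a * (r i ^ 2 * x i ^ 2) + a ^ 2 * x i ^ 2 := fun i => by ring
    have e2 : ∀ i j, (r i ^ 2 - r j ^ 2) ^ 2 * (x i ^ 2 * x j ^ 2) = r i ^ 4 * x i ^ 2 * x j ^ 2 -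
        2 * (r i ^ 2 * x i ^ 2) * (r j ^ 2 * x j ^ 2) + x i ^ 2 * (r j ^ 4 * x j ^ 2) :=
      fun i j => by ring
    simp only [e1, e2, Finset.sum_add_distrib, Finset.sum_sub_distrib, ← Finset.mul_sum,
      ← Finset.sum_mul, hx, ← ha]
    ring
  have h3 : ∀ i j, (r i ^ 2 - r j ^ 2) ^ 2 * (x i ^ 2 * x j ^ 2) ≤
      a * G (r i) (r j) (x i) (x j) := fun i j => by
    rcases eq_or_ne i j with e | e
    · simp [e, G]
    have b1 : r i ^ 2 * x i ^ 2 + r j ^ 2 * x j ^ 2 ≤ a := ha ▸ Finset.add_le_sum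
      (f := fun i => r i ^ 2 * x i ^ 2) (fun i _ => by positivity) (Finset.mem_univ i)
      (Finset.mem_univ j) e
    rcases (sq_nonneg (x i)).eq_or_lt with k | k
    · rw [← k, zero_mul, mul_zero]
      exact mul_nonneg a0 (G_nn _ _ _ _)
    have b2 : 0 < r i ^ 2 * x i ^ 2 + r j ^ 2 * x j ^ 2 :=
      add_pos_of_pos_of_nonneg (mul_pos (pow_pos (hr i) 2) k) (by positivity)
    refine le_trans (le_of_eq ?_) (mul_le_mul_of_nonneg_right b1 (G_nn _ _ _ _))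
    rw [G, mul_div_cancel₀ _ b2.ne']
  have h4 := Finset.sum_le_sum fun i (_ : i ∈ Finset.univ) =>
    Finset.sum_le_sum fun j (_ : j ∈ Finset.univ) => h3 i j
  simp only [← Finset.mul_sum] at h4
  have w0 : 0 ≤ ∑ i, ∑ j, G (r i) (r j) (x i) (x j) :=
    Finset.sum_nonneg fun i _ => Finset.sum_nonneg fun j _ => G_nn _ _ _ _
  have h5 := Finset.sum_mul_sq_le_sq_mul_sq Finset.univ z fun i => (r i ^ 2 - a) * x i
  have y0 : 0 ≤ ∑ i, ((r i ^ 2 - a) * x i) ^ 2 := Finset.sum_nonneg fun i _ => sq_nonneg _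
  rw [h1, ← ha]
  rw [← h2] at h4
  generalize ∑ i, ∑ j, G (r i) (r j) (x i) (x j) = W at *
  generalize ∑ i, ((r i ^ 2 - a) * x i) ^ 2 = Y at *
  have c0 := sub_nonneg.2 hc
  have h6 := h5.trans ((mul_le_mul_of_nonneg_right hz y0).trans (mul_le_mul_of_nonneg_left
    (show Y ≤ a * W / 2 by linarith) (mul_nonneg (sq_nonneg ε) c0)))
  have h7 := abs_le_of_sq_le_sq' (b := (c - 1) * a + ε ^ 2 / 8 * W)
    (h6.trans (by nlinarith [sq_nonneg ((c - 1) * a - ε ^ 2 / 8 * W)])) (by positivity)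
  linarith [h7.1]

/-- A trace bound with a defect below the sum over pairs bounds the product. -/
theorem alg_log {n : ℕ} (hn : 2 ≤ n) (r : Fin n → ℝ) (hr : ∀ i, 0 < r i) {k : ℝ}
    (hk : (n - 1) * k < 1 / 2) (h : ∑ i, r i ^ 2 ≤ n + k * ∑ i, ∑ j, (r i - r j) ^ 2) :
    ∏ i, r i ^ 2 ≤ 1 ∧ (∏ i, r i ^ 2 = 1 → ∀ i, r i = 1) := by
  have hp : 0 < ∏ i, r i ^ 2 := Finset.prod_pos fun i _ => pow_pos (hr i) 2
  have n1 : (0 : ℝ) < n - 1 := by linarith [(Nat.ofNat_le_cast (α := ℝ)).2 hn]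
  have g0 : ∀ i j, 0 ≤ r i * r j - 1 - Real.log (r i) - Real.log (r j) := fun i j => by
    have := Real.log_le_sub_one_of_pos (mul_pos (hr i) (hr j))
    rw [Real.log_mul (hr i).ne' (hr j).ne'] at this
    linarith
  have g1 := Finset.sum_le_sum fun i (_ : i ∈ Finset.univ) =>
    Finset.single_le_sum (fun j _ => g0 i j) (Finset.mem_univ i)
  have g2 : ∀ i j, (r i - r j) ^ 2 = r i ^ 2 - 2 * r i * r j + r j ^ 2 := fun i j => by ring
  have q0 : 0 ≤ ∑ i, ∑ j, (r i - r j) ^ 2 :=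
    Finset.sum_nonneg fun i _ => Finset.sum_nonneg fun j _ => sq_nonneg _
  have q1 : ∑ i, ∑ j, (r i - r j) ^ 2 = 2 * (n * ∑ i, r i ^ 2) - 2 * (∑ i, r i) * ∑ i, r i := by
    simp only [g2, Finset.sum_add_distrib, Finset.sum_sub_distrib, ← Finset.mul_sum,
      ← Finset.sum_mul, Finset.sum_const, Finset.card_univ, Fintype.card_fin, nsmul_eq_mul]
    ring
  have h1 : Real.log (∏ i, r i ^ 2) = 2 * ∑ i, Real.log (r i) := by
    rw [Real.log_prod fun i _ => (pow_pos (hr i) 2).ne', Finset.mul_sum]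
    simp only [Real.log_pow, Nat.cast_ofNat]
  simp only [Finset.sum_sub_distrib, ← Finset.mul_sum, Finset.sum_const,
    Finset.card_univ, Fintype.card_fin, nsmul_eq_mul, mul_one] at g1
  rw [← Finset.sum_mul] at g1
  have e : ∑ i, r i ^ 2 = ∑ i, r i * r i := by simp only [sq]
  rw [e] at h q1
  generalize ∑ i, ∑ j, (r i - r j) ^ 2 = Q at *
  have h2 : (n - 1) * (2 * ∑ i, Real.log (r i)) + (1 / 2 - (n - 1) * k) * Q ≤ 0 := by
    nlinarith [mul_le_mul_of_nonneg_left h n1.le]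
  have h3 := mul_nonneg (sub_pos.2 hk).le q0
  refine ⟨(Real.log_nonpos_iff hp.le).1 (h1 ▸ le_of_mul_le_mul_left (a := (n : ℝ) - 1)
    (by linarith) n1), fun h0 i => ?_⟩
  rw [h0, Real.log_one] at h1
  rw [← h1, mul_zero, zero_add] at h2
  have h4 : Q = 0 := le_antisymm (le_of_mul_le_mul_left (by linarith) (sub_pos.2 hk)) q0
  rw [h4] at h
  have g3 : ∀ i, (r i - 1) ^ 2 ≤ r i * r i - 1 - 2 * Real.log (r i) := fun i => by
    nlinarith [Real.log_le_sub_one_of_pos (hr i)]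
  have h5 := Finset.single_le_sum (fun j _ => (sq_nonneg _).trans (g3 j)) (Finset.mem_univ i)
  simp only [Finset.sum_sub_distrib, ← Finset.mul_sum, Finset.sum_const, Finset.card_univ,
    Fintype.card_fin, nsmul_eq_mul, mul_one] at h5
  have h6 : (r i - 1) ^ 2 = 0 := le_antisymm (by linarith [g3 i]) (sq_nonneg _)
  exact sub_eq_zero.1 (pow_eq_zero_iff two_ne_zero |>.1 h6)

/-- The Jacobian estimate. -/
theorem alg {n : ℕ} (hn : 2 ≤ n) {W : Type*} [MeasurableSpace W] (μ : Measure W)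
    [IsFiniteMeasure μ]
    (u : W → E n) (l : W → E n →L[ℝ] ℝ) (L : E n →L[ℝ] E n) (ε : ℝ) (Q : W → Prop)
    (hu : ∀ᵐ w ∂μ, ‖u w‖ = 1) (hum : AEStronglyMeasurable u μ)
    (hiso : ∀ a b : E n, ∫ w, ⟪u w, a⟫ * ⟪u w, b⟫ ∂μ = ⟪a, b⟫)
    (hint : ∀ e a : E n, Integrable (fun w => l w e * ⟪u w, a⟫) μ)
    (hzero : ∀ e a : E n, ∫ w, l w e * ⟪u w, a⟫ ∂μ = 0) (hε : (n - 1) * ε ^ 2 < 4)
    (hG : ∀ (p q : E n) (A B : ℝ), ‖p‖ = 1 → ‖q‖ = 1 → ⟪p, q⟫ = 0 → 0 < A → 0 < B →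
      Integrable (fun w => G A B ⟪u w, p⟫ ⟪u w, q⟫) μ ∧
        ∫ w, G A B ⟪u w, p⟫ ⟪u w, q⟫ ∂μ = (A - B) ^ 2)
    (hok : ∀ᵐ w ∂μ, ∀ a : E n, ∃ (c : ℝ) (ζ : E n), 1 ≤ c ∧ ⟪ζ, u w⟫ = 0 ∧
      ‖ζ‖ ^ 2 ≤ ε ^ 2 * (c - 1) ∧ (c = 1 → Q w) ∧ l w a ≤ ‖a‖ - ⟪c • u w + ζ, L a⟫) :
    |L.det| ≤ 1 ∧ (|L.det| = 1 → (∀ e, ‖L e‖ = ‖e‖) ∧ ∀ᵐ w ∂μ, Q w) := by
  rcases eq_or_ne L.det 0 with h0 | h0
  · rw [h0, abs_zero]
    exact ⟨zero_le_one, fun h => absurd h zero_ne_one⟩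
  obtain ⟨e, f, s, hs, hL, hdet⟩ := nuc_svd L h0
  obtain ⟨r, hr, hrs⟩ : ∃ r : Fin n → ℝ, (∀ i, 0 < r i) ∧ ∀ i, s i = r i ^ 2 :=
    ⟨fun i => √(s i), fun i => Real.sqrt_pos.2 (hs i), fun i => (Real.sq_sqrt (hs i).le).symm⟩
  simp only [hrs] at hL hdet
  have hG' : ∀ i j, Integrable (fun w => G (r i) (r j) ⟪u w, f i⟫ ⟪u w, f j⟫) μ ∧
      ∫ w, G (r i) (r j) ⟪u w, f i⟫ ⟪u w, f j⟫ ∂μ = (r i - r j) ^ 2 := fun i j => by
    rcases eq_or_ne i j with k | k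
    · simp [k, G]
    · exact hG _ _ _ _ (f.orthonormal.1 i) (f.orthonormal.1 j) (f.orthonormal.2 k) (hr i) (hr j)
  have hbi : Integrable (fun w => ∑ i, ∑ j, G (r i) (r j) ⟪u w, f i⟫ ⟪u w, f j⟫) μ :=
    integrable_finsetSum _ fun i _ => integrable_finsetSum _ fun j _ => (hG' i j).1
  have hb : ∫ w, ∑ i, ∑ j, G (r i) (r j) ⟪u w, f i⟫ ⟪u w, f j⟫ ∂μ = ∑ i, ∑ j, (r i - r j) ^ 2 := by
    rw [integral_finsetSum _ fun i _ => integrable_finsetSum _ fun j _ => (hG' i j).1]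
    refine Finset.sum_congr rfl fun i _ => ?_
    rw [integral_finsetSum _ fun j _ => (hG' i j).1]
    exact Finset.sum_congr rfl fun j _ => (hG' i j).2
  have hx : ∀ i, Integrable (fun w => ⟪u w, f i⟫ ^ 2) μ := fun i => by
    refine Integrable.of_bound ((hum.inner aestronglyMeasurable_const).pow 2) 1 ?_
    filter_upwards [hu] with w hw
    have h1 := abs_real_inner_le_norm (u w) (f i)
    rw [hw, f.orthonormal.1 i, mul_one] at h1
    rw [norm_pow, Real.norm_eq_abs]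
    exact pow_le_one₀ (abs_nonneg _) h1
  have hx1 : ∀ i, ∫ w, ⟪u w, f i⟫ ^ 2 ∂μ = 1 := fun i => by
    simp only [sq]
    rw [hiso, real_inner_self_eq_norm_sq, f.orthonormal.1 i, one_pow]
  have hm : μ.real univ = n := by
    have h1 : ∫ w, ∑ i, ⟪u w, f i⟫ ^ 2 ∂μ = ∫ _w, (1 : ℝ) ∂μ := by
      refine integral_congr_ae ?_
      filter_upwards [hu] with w hw
      rw [f.sum_sq_inner_left, hw, one_pow]
    rw [integral_finsetSum _ fun i _ => hx i] at h1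
    simpa [hx1] using h1.symm
  have hgi : Integrable (fun w => ∑ i, l w (e i) * ⟪u w, f i⟫) μ :=
    integrable_finsetSum _ fun i _ => hint _ _
  have hg0 : ∫ w, ∑ i, l w (e i) * ⟪u w, f i⟫ ∂μ = 0 := by
    rw [integral_finsetSum _ fun i _ => hint _ _]
    simp only [hzero, Finset.sum_const_zero]
  have hai : Integrable (fun w => ∑ i, r i ^ 2 * ⟪u w, f i⟫ ^ 2) μ :=
    integrable_finsetSum _ fun i _ => (hx i).const_mul _
  have ha : ∫ w, ∑ i, r i ^ 2 * ⟪u w, f i⟫ ^ 2 ∂μ = ∑ i, r i ^ 2 := by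
    rw [integral_finsetSum _ fun i _ => (hx i).const_mul _]
    simp only [integral_const_mul, hx1, mul_one]
  have hle : ∀ᵐ w ∂μ, ∑ i, l w (e i) * ⟪u w, f i⟫ ≤
      (1 + ε ^ 2 / 8 * ∑ i, ∑ j, G (r i) (r j) ⟪u w, f i⟫ ⟪u w, f j⟫) -
        ∑ i, r i ^ 2 * ⟪u w, f i⟫ ^ 2 := by
    filter_upwards [hu, hok] with w hw hc
    obtain ⟨c, z, h0, -, h1, h2, h3⟩ := eval e f r hL hw hc
    have h5 := alg_pt r (fun i => ⟪u w, f i⟫) z c ε hr
      (by rw [f.sum_sq_inner_left, hw, one_pow]) h0 h1 h2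
    linarith
  have hci := (integrable_const (1 : ℝ)).add (hbi.const_mul (ε ^ 2 / 8))
  have htr := integral_mono_ae hgi (hci.sub hai) hle
  rw [hg0, integral_sub' hci hai, ha, integral_add' (integrable_const _) (hbi.const_mul _),
    integral_const_mul, hb, integral_const, hm, smul_eq_mul] at htr
  have hlog := alg_log hn r hr (k := ε ^ 2 / 8) (by linarith) (by linarith)
  rw [hdet]
  refine ⟨hlog.1, fun h1 => ?_⟩
  have hr1 := hlog.2 h1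
  have hL1 : ∀ i, L (e i) = f i := fun i => by rw [hL, hr1, one_pow, one_smul]
  constructor
  · intro v
    have h2 : L v = ∑ i, ⟪e i, v⟫ • f i := by
      conv_lhs => rw [← e.sum_repr' v]
      simp only [map_sum, map_smul, hL1]
    have h3 : ‖L v‖ ^ 2 = ‖v‖ ^ 2 := by
      rw [h2, ← f.sum_sq_inner_right, ← e.sum_sq_inner_right v]
      simp only [f.orthonormal.inner_right_fintype]
    exact (pow_left_inj₀ (norm_nonneg _) (norm_nonneg _) two_ne_zero).1 h3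
  · have hc1 : ∀ᵐ w ∂μ, ∃ c : ℝ, 1 ≤ c ∧ (c = 1 → Q w) ∧
        ∑ i, l w (e i) * ⟪u w, f i⟫ ≤ 1 - c := by
      filter_upwards [hu, hok] with w hw hc
      obtain ⟨c, z, h0, hQ, h2, -, h3⟩ := eval e f r hL hw hc
      simp only [hr1, one_pow, one_mul] at h3
      rw [h2, f.sum_sq_inner_left, hw, one_pow, mul_one, add_zero] at h3
      exact ⟨c, h0, hQ, h3⟩
    have hneg : 0 ≤ᵐ[μ] fun w => -∑ i, l w (e i) * ⟪u w, f i⟫ := by
      filter_upwards [hc1] with w ⟨c, h0, _, h3⟩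
      simp only [Pi.zero_apply]
      linarith
    have hz := (integral_eq_zero_iff_of_nonneg_ae hneg hgi.neg).1
      (by rw [integral_neg, hg0, neg_zero])
    filter_upwards [hc1, hz] with w ⟨c, h0, hQ, h3⟩ h2
    simp only [Pi.zero_apply, neg_eq_zero] at h2
    exact hQ (by linarith)

open DN (Dim dm)

variable [Dim]

open DN DZ

/-- The algebraic half of the Jacobian estimate. -/
theorem jb (ε : ℝ) (L : V →L[ℝ] V) (Q : V → Prop) (hM : MS) (hε : ((dm : ℝ) - 1) * ε ^ 2 < 4)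
    (h : Fo ε L Q) : |L.det| ≤ 1 ∧ (1 ≤ |L.det| → ∀ᵐ w ∂mS, Q (un w)) := by
  obtain ⟨l, h1, h2⟩ := h
  have := hM.fin
  have hT : ∀ (e a w : V), l w (((innerSL ℝ a).smulRight e) (un w)) = l w e * ⟪un w, a⟫ :=
    fun e a w => by
      simp only [ContinuousLinearMap.smulRight_apply, innerSL_apply_apply, map_smul, smul_eq_mul]
      rw [mul_comm, real_inner_comm]
  have key := alg (Nat.le_add_left 2 (Dim.k + 1)) mS un l L ε (fun w => Q (un w))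
    (hM.mem.mono fun w hw => DZJ.hat_norm (DZJ.sh_ne hw))
    DZJ.hat_meas.aestronglyMeasurable hM.iso
    (fun e a => by simpa only [hT] using (h1 ((innerSL ℝ a).smulRight e)).1)
    (fun e a => by simpa only [hT] using (h1 ((innerSL ℝ a).smulRight e)).2) hε
    (fun p q A B a1 a2 a3 a4 a5 => ang mS hM.rot hM.iso a1 a2 a3 a4 a5)
    (h2.mono fun w ⟨c, ζ, a1, a2, a3, a4, a5⟩ a => ⟨c, ζ, a1, a2, a3, a4, a5 a⟩)
  exact ⟨key.1, fun h => (key.2 (le_antisymm key.1 h)).2⟩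

end Pool.Agent.MP_3ee8cb_gt.DQK
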