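import Pool.Agent.MP_3ee8cb_gt.DQ.RZERO
import Pool.Agent.MP_3ee8cb_gt.DQ.RJA

/-! The zero of the averaged field and its first order data under a weaker condition. -/

namespace Pool.Agent.MP_3ee8cb_gt.DQ.Shp

open Set Filter Topology MeasureTheory DN DZ DZZ
open scoped RealInnerProductSpace

variable [Dim]

/-- A statement about a support function. -/
def OnT' (R : MF → MF → (V × V → V) → (V → V → ℝ) → ℝ → (V → V → V → ℝ) → (V → Set V) →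
    (V → Set V) → (V → V → V → Prop) → Prop) : Prop :=
  ∀ m₀ m lg dX (ε : ℝ) u C C₀ Q, MS → XW m₀ dX → YW m lg → (dm - 1) * ε ^ 2 < 4 →
    Sq m lg dX ε u C C₀ Q → R m₀ m lg dX ε u C C₀ Q

/-- The rate of decrease. -/
noncomputable def rt (ε : ℝ) (v w : V) : ℝ := (1 + ε ^ 2 / 4) * ⟪w, v⟫ ^ 2 - ε ^ 2 / 4 * ‖v‖ ^ 2

section

variable {m : MF} {lg : V × V → V} {μ : Measure V} {u u' : V × V → ℝ} {ε : ℝ}

theorem one (ho : m.OK) (hu : ContinuousOn u {p | ‖p.2‖ = 1}) {z : V × V} {O : ℝ → V ≃ₗᵢ[ℝ] V}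
    (h1 : ∀ t, O t z.2 = (m.Z t z).2) (h2 : ∀ a t, HasDerivAt (fun s => O s a) (-m.w z t (O t a)) t)
    {a b : ℝ} (hab : a ≤ b) {w : V} (hw : ‖w‖ = 1)
    (h : ∀ t ∈ Icc a b, ∃ Q, Tc m u ε Q ((m.Z t z).1, O t w)) :
    u ((m.Z b z).1, O b w) * ⟪w, z.2⟫ + b * rt ε z.2 w ≤
      u ((m.Z a z).1, O a w) * ⟪w, z.2⟫ + a * rt ε z.2 w := by
  have d := fun t => HasDerivAt.prodMk
    ((ContinuousLinearMap.fst ℝ V V).hasFDerivAt.comp_hasDerivAt t (ho.ode z t)) (h2 w t)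
  have n : ∀ t, ‖O t w‖ = 1 := fun t => ((O t).norm_map w).trans hw
  have c : ContinuousOn (fun t => u ((m.Z t z).1, O t w) * ⟪w, z.2⟫ +
      t * rt ε z.2 w) (Icc a b) :=
    ((hu.comp (fun t _ => (d t).continuousAt.continuousWithinAt) fun t _ => n t).mul
      continuousOn_const).add (continuousOn_id.mul continuousOn_const)
  have k : ∀ t ∈ Icc a b, ∃ (ψ : ℝ → ℝ) (e : ℝ), HasDerivAt ψ e t ∧
      e * ⟪w, z.2⟫ + 1 * rt ε z.2 w ≤ 0 ∧
      ψ t = u ((m.Z t z).1, O t w) ∧ ∀ᶠ s in 𝓝 t, ψ s ≤ u ((m.Z s z).1, O s w) := fun t ht => by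
    obtain ⟨Q, Φ, D, c, ζ, a1, a2, a3, a4, a0, a5, -, a6⟩ := h t ht
    refine ⟨_, _, a1.comp_hasDerivAt t (d t), ?_, a2,
      ((d t).continuousAt.eventually a3).mono fun s hs => hs (n s)⟩
    rw [a6 _ (by simp [MF.ver, MF.vf, MF.w]), show m.hor _ _ = O t z.2 from
      (ho.SR _ _).trans (h1 t).symm, inner_add_left, real_inner_smul_left,
      LinearIsometryEquiv.inner_map_map]
    have b0 : ⟪ζ, O t z.2⟫ = ⟪ζ, O t (z.2 - ⟪w, z.2⟫ • w)⟫ := by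
      rw [map_sub, map_smul, inner_sub_right, inner_smul_right, a0, mul_zero, sub_zero]
    have b5 : ‖z.2 - ⟪w, z.2⟫ • w‖ ^ 2 = ‖z.2‖ ^ 2 - ⟪w, z.2⟫ ^ 2 := by
      rw [norm_sub_sq_real, inner_smul_right, norm_smul, hw, real_inner_comm, Real.norm_eq_abs,
        mul_one, sq_abs]
      ring
    have b1 := pow_le_pow_left₀ (abs_nonneg _)
      (abs_real_inner_le_norm ζ (O t (z.2 - ⟪w, z.2⟫ • w))) 2
    rw [(O t).norm_map, sq_abs, mul_pow, ← b0] at b1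
    have b2 := mul_le_mul_of_nonneg_right (b1.trans (mul_le_mul_of_nonneg_right a5 (sq_nonneg _)))
      (sq_nonneg ⟪w, z.2⟫)
    have b3 := mul_nonneg (sub_nonneg.2 a4) (sq_nonneg ⟪w, z.2⟫)
    have b6 := sq_nonneg ((c - 1) * ⟪w, z.2⟫ ^ 2 - ε ^ 2 / 4 * ‖z.2 - ⟪w, z.2⟫ • w‖ ^ 2)
    have b4 := abs_le_of_sq_le_sq' (a := ⟪ζ, O t z.2⟫ * ⟪w, z.2⟫)
      (b := (c - 1) * ⟪w, z.2⟫ ^ 2 + ε ^ 2 / 4 * ‖z.2 - ⟪w, z.2⟫ • w‖ ^ 2) (by nlinarith [b6])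
      (by positivity)
    rw [b5] at b4
    rw [rt]
    nlinarith [b4.1]
  rcases le_total 0 ⟪w, z.2⟫ with p | p
  · refine anti_below hab c fun t ht => ?_
    obtain ⟨ψ, e, a1, a2, a3, a4⟩ := k t ht
    exact ⟨_, _, (a1.mul_const _).fun_add ((hasDerivAt_id t).mul_const _), a2, by simp [a3],
      a4.mono fun s hs => add_le_add_left (mul_le_mul_of_nonneg_right hs p) _⟩
  · refine anti_above hab c fun t ht => ?_
    obtain ⟨ψ, e, a1, a2, a3, a4⟩ := k t ht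
    exact ⟨_, _, (a1.mul_const _).fun_add ((hasDerivAt_id t).mul_const _), a2, by simp [a3],
      a4.mono fun s hs => add_le_add_left (mul_le_mul_of_nonpos_right hs p) _⟩

theorem mono (ho : m.OK) (hj : m.Jac) (hμ : Rot μ) (hu : ContinuousOn u {p | ‖p.2‖ = 1})
    (z : V × V) {a b : ℝ} (hab : a ≤ b)
    (h : ∀ t ∈ Icc a b, ∀ w, ‖w‖ = 1 → ∃ Q, Tc m u ε Q ((m.Z t z).1, w)) :
    ⟪av μ u (m.Z b z).1, (m.Z b z).2⟫ +
      (b - a) * ((1 - (dm - 1) * (ε ^ 2 / 4)) * ‖z.2‖ ^ 2) ≤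
      ⟪av μ u (m.Z a z).1, (m.Z a z).2⟫ := by
  have := hμ.fin
  obtain ⟨O, -, h1, h2⟩ := hj.par z
  have i := hμ.int (f := fun w => ⟪w, z.2⟫ ^ 2) (by fun_prop)
  have i' := fun t : ℝ => hμ.int (f := fun w => t * rt ε z.2 w) (by unfold rt; fun_prop)
  have e : ∀ t, ∫ w, (u ((m.Z t z).1, O t (‖w‖⁻¹ • w)) * ⟪‖w‖⁻¹ • w, z.2⟫ +
      t * rt ε z.2 (‖w‖⁻¹ • w)) ∂μ = ⟪av μ u (m.Z t z).1, (m.Z t z).2⟫ +
        t * ((1 - (dm - 1) * (ε ^ 2 / 4)) * ‖z.2‖ ^ 2) := fun t => by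
    rw [integral_add (av_inner hμ hu _ _ _).1 (i' t),
      ← (av_inner hμ hu _ _ _).2, h1, integral_const_mul]
    unfold rt
    rw [integral_sub (i.const_mul _) (integrable_const _), integral_const_mul,
      hμ.sq, integral_const, hμ.mass, smul_eq_mul]
    ring
  have k := integral_mono_ae
    ((av_inner hμ hu _ _ _).1.add (i' b)) ((av_inner hμ hu _ _ _).1.add (i' a))
    (hμ.ne.mono fun w hw => one ho hu h1 h2 hab (nrm hw) fun t ht =>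
      h t ht _ (((O t).norm_map _).trans (nrm hw)))
  have k1 := e a
  have k2 := e b
  simp only [Pi.add_apply] at k
  linarith

theorem stab (ho : m.OK) (hj : m.Jac) (hl : m.Had lg) (hμ : Rot μ)
    (hu : ContinuousOn u {p | ‖p.2‖ = 1}) (hu' : ContinuousOn u' {p | ‖p.2‖ = 1})
    (hε : (dm - 1) * ε ^ 2 < 4) {z z' : V} {δ : ℝ} (h0 : av μ u z = 0) (h1 : av μ u' z' = 0)
    (h : ∀ w, ‖w‖ = 1 → |u (z', w) - u' (z', w)| ≤ δ)
    (ht : ∀ t ∈ Icc (0 : ℝ) 1, ∀ w, ‖w‖ = 1 → ∃ Q, Tc m u ε Q ((m.Z t (z, lg (z, z'))).1, w)) :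
    ‖lg (z, z')‖ ≤ dm / (1 - (dm - 1) * (ε ^ 2 / 4)) * δ := by
  have k1 := mono ho hj hμ hu (z, lg (z, z')) zero_le_one ht
  have k2 := av_sub hμ hu hu' h
  have k3 := neg_le_of_abs_le (abs_real_inner_le_norm (av μ u z') (m.Z 1 (z, lg (z, z'))).2)
  rw [ho.zero, hl.ex, h0, inner_zero_left] at k1
  rw [h1, sub_zero] at k2
  rw [hj.norm] at k3
  simp only at k1 k3
  have k4 := (norm_nonneg _).trans k2
  have k7 : 0 < 1 - (dm - 1) * (ε ^ 2 / 4) := by linarith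
  rw [div_mul_eq_mul_div, le_div_iff₀ k7]
  rcases (norm_nonneg (lg (z, z'))).eq_or_lt with k6 | k6
  · rwa [← k6, zero_mul]
  · refine le_of_mul_le_mul_right ?_ k6
    nlinarith [mul_le_mul_of_nonneg_right k2 k6.le]

end

theorem zero : OnT' fun _ _ lg dX _ u C C₀ _ => ∃ f, Zq lg dX u C C₀ f := by
  intro m₀ m lg dX ε u C C₀ Q hM hX hY hε h
  have rotS := hM.rot'
  have c : ∀ x, ContinuousOn (fun q : V × V => u x q.1 q.2) {q | ‖q.2‖ = 1} := fun x q hq => by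
    obtain ⟨K, hK⟩ := h.lipz x (‖q.1‖ + 1)
    refine ((hK x (by simp [hX.self])).continuousOn q ⟨by linarith, hq⟩).mono_of_mem_nhdsWithin ?_
    exact inter_mem (nhdsWithin_le_nhds (continuous_fst.norm.continuousAt.eventually
      (Iic_mem_nhds (lt_add_one _)))) self_mem_nhdsWithin
  obtain ⟨r, r0, hr⟩ := h.nest
  have n := fun x => hr x x (by rw [hX.self]; exact r0.le)
  have ex : ∀ x, ∃ z ∈ C₀ x, VV u x z = 0 := fun x => by
    obtain ⟨y, ρ, h1, h2⟩ := h.inw x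
    exact ZRx.ex hY (av_cont rotS (c x)) h1 h2
  choose f f1 f2 using ex
  have st : ∀ x x' z z', z ∈ C x → z' ∈ C x → VV u x z = 0 → VV u x' z' = 0 →
      ‖lg (z, z')‖ ≤ dm / (1 - (dm - 1) * (ε ^ 2 / 4)) * dX x x' := fun x x' z z' a1 a2 a3 a4 =>
    stab hY.ok hY.jac hY.had rotS (c x) (c x') hε a3 a4 (fun w hw => h.lipx x x' z' w hw)
      fun t ht w hw => ⟨_, h.tou x _ w
        (h.cvx x (z, lg (z, z')) a1 ((hY.had.ex z z').symm ▸ a2) t ht) hw⟩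
  refine ⟨f, f1, f2, fun x z a1 a2 => ?_, r, _, r0, div_nonneg (Nat.cast_nonneg _) (by linarith),
    fun x x' k => st x x' _ _ (n x (f1 x)) (hr x x' k (f1 x')) (f2 x) (f2 x')⟩
  have := st x x _ _ a1 (n x (f1 x)) a2 (f2 x)
  rw [hX.self, mul_zero, norm_le_zero_iff, ← DNWI.lg_self hY.ok hY.jac hY.had z] at this
  rw [← hY.had.ex z (f x), this, hY.had.ex]

theorem fl : OnT' fun _ _ lg dX _ u C C₀ _ => ∀ f, Zq lg dX u C C₀ f → LocallyLipschitz f := by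
  intro m₀ m lg dX ε u C C₀ Q _ xw yw _ _ f z
  obtain ⟨r, K, r0, K0, hl⟩ := z.lip
  refine locLip yw.ok yw.jac yw.had fun x => ⟨K * (2 * ‖m₀.S x‖), ?_⟩
  have t : ∀ᶠ q : V × V in 𝓝 (x, x), 2 * ‖m₀.S x‖ * ‖q.2 - q.1‖ ≤ r :=
    (Continuous.tendsto' (y := 0) (by fun_prop) _ (by simp)).eventually_le_const r0
  filter_upwards [t, xw.upp x 1 one_pos] with q h1 h2
  have h3 : dX q.1 q.2 ≤ 2 * ‖m₀.S x‖ * ‖q.2 - q.1‖ := by
    linarith [(m₀.S x).le_opNorm (q.2 - q.1)]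
  rw [mul_assoc]
  exact (hl _ _ (h3.trans h1)).trans (mul_le_mul_of_nonneg_left h3 K0)

theorem ja : OnT' fun m₀ m lg dX ε u C C₀ Q => ∀ f, Zq lg dX u C C₀ f →
    LocallyLipschitz f → ∀ᵐ x, DifferentiableAt ℝ f x ∧ Fo ε (LL m₀ m f x) (Q x (f x)) := by
  intro m₀ m lg dX ε u C C₀ Q ms xw yw _ sp f zr hf
  obtain ⟨r, r0, hr⟩ := sp.nest
  have := ms.fin
  have hd : ∀ (x e : V) (η : ℝ), 0 < η →
      ∀ᶠ s in 𝓝 (0 : ℝ), dX x (x + s • e) ≤ (‖m₀.S x e‖ + η) * |s| := fun x e η hη => by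
    have p : 0 < ‖m₀.S x e‖ + 1 := by positivity
    have c : Continuous fun s : ℝ => (x, x + s • e) := by fun_prop
    have t := c.tendsto 0
    rw [zero_smul, add_zero] at t
    filter_upwards [t.eventually (xw.upp x _ (div_pos hη p))] with s hs
    rw [add_sub_cancel_left, map_smul, norm_smul, Real.norm_eq_abs, mul_comm |s|,
      ← mul_assoc] at hs
    refine hs.trans (mul_le_mul_of_nonneg_right ?_ (abs_nonneg s))
    have : η / (‖m₀.S x e‖ + 1) * ‖m₀.S x e‖ ≤ η := by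
      rw [div_mul_eq_mul_div, div_le_iff₀ p]
      nlinarith
    linarith
  filter_upwards [DZJ.ana yw.ok yw.jac mS ms.ac ms.mem ms.rot (N := fun x e => ‖m₀.S x e‖) hd
    (u := fun x z => u x z.1 z.2) hf (JAx.ja_lip xw sp hf) (fun x x' z hz => by
      have := (abs_le.1 (sp.lipx x x' z.1 z.2 hz)).2
      linarith) zr.zero] with x ⟨h1, l, h2, h3⟩
  refine ⟨h1, fun w => (l w).comp (m₀.R x), fun T => ?_, ?_⟩
  · let b := stdOrthonormalBasis ℝ V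
    have e : ∀ w, ((l w).comp (m₀.R x)) (T (un w)) =
        ∑ i, ⟪b i, l w (m₀.R x (T (b i))) • un w⟫ := fun w => by
      conv_lhs => rw [← b.sum_repr' (un w)]
      simp only [map_sum, map_smul, inner_smul_right, smul_eq_mul, mul_comm,
        ContinuousLinearMap.comp_apply]
    have i : ∀ i, Integrable (fun w => ⟪b i, l w (m₀.R x (T (b i))) • un w⟫) mS := fun i =>
      (h2 _).1.const_inner _
    simp only [e]
    refine ⟨integrable_finsetSum _ fun j _ => i j, ?_⟩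
    rw [integral_finsetSum _ fun j _ => i j]
    refine Finset.sum_eq_zero fun j _ => ?_
    have k := h2 (m₀.R x (T (b j)))
    exact (integral_inner k.1 _).trans (by rw [k.2, inner_zero_right])
  filter_upwards [h3, ms.mem] with w hw (w1 : 1 ≤ ‖w‖ ∧ ‖w‖ ≤ 2)
  obtain ⟨Φ, D, c, ζ, k1, k2, k3, k4, k5, k6, k7, k8⟩ := sp.tou x (f x) (un w)
    (hr x x (by rw [xw.self]; exact r0.le) (zr.mem x))
    (ja_un (norm_pos_iff.1 (one_pos.trans_le w1.1)))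
  refine ⟨c, ζ, k4, k5, k6, k7, fun e => ?_⟩
  have := hw Φ (c • un w + ζ) ⟨k1.differentiableAt, k2, k3, fun ξ hξ =>
    (congrArg (· ξ) k1.fderiv).trans (k8 ξ hξ)⟩ (m₀.R x e)
  rwa [xw.ok.SR] at this

end Pool.Agent.MP_3ee8cb_gt.DQ.Shp
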