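import Pool.Agent.MP_3ee8cb_gt.DZJ.Shell

/-! An angular mean for rotation invariant measures. -/

namespace Pool.Agent.MP_3ee8cb_gt.DQK

open Set MeasureTheory CR Real
open scoped RealInnerProductSpace

/-- The contribution of a pair of directions. -/
noncomputable def G (A B x y : ℝ) : ℝ :=
  (A ^ 2 - B ^ 2) ^ 2 * (x ^ 2 * y ^ 2) / (A ^ 2 * x ^ 2 + B ^ 2 * y ^ 2)

variable {A B : ℝ}

theorem G_nn (A B x y : ℝ) : 0 ≤ G A B x y := by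
  unfold G
  positivity

theorem G_le (hA : 0 < A) (B x y : ℝ) : G A B x y ≤ (A ^ 2 - B ^ 2) ^ 2 / A ^ 2 * y ^ 2 := by
  unfold G
  refine div_le_of_le_mul₀ (by positivity) (by positivity) ?_
  have e : (A ^ 2 - B ^ 2) ^ 2 / A ^ 2 * y ^ 2 * (A ^ 2 * x ^ 2 + B ^ 2 * y ^ 2) =
      (A ^ 2 - B ^ 2) ^ 2 * (x ^ 2 * y ^ 2) + (A ^ 2 - B ^ 2) ^ 2 / A ^ 2 * y ^ 2 *
        (B ^ 2 * y ^ 2) := by
    field_simp
  rw [e]
  exact le_add_of_nonneg_right (by positivity)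

theorem pos2 (hA : 0 < A) (hB : 0 < B) {X Y : ℝ} (h : 0 < X ^ 2 + Y ^ 2) :
    0 < A * X ^ 2 + B * Y ^ 2 := by
  rcases (sq_nonneg X).eq_or_lt with h1 | h1
  · rw [← h1] at h ⊢
    nlinarith [mul_pos hB (show 0 < Y ^ 2 by linarith)]
  · nlinarith [mul_pos hA h1, mul_nonneg hB.le (sq_nonneg Y)]

theorem der (hA : 0 < A) (hB : 0 < B) {X Y : ℝ → ℝ} {t ρ : ℝ} (hX : HasDerivAt X (-2 * Y t) t)
    (hY : HasDerivAt Y (2 * X t) t) (h : X t ^ 2 + Y t ^ 2 = ρ) (h0 : 0 < ρ) :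
    HasDerivAt (fun s => ρ * (A - B) ^ 2 / 2 * s - (A ^ 2 - B ^ 2) / 4 * (X s * Y s) -
      A * B * ρ / 2 * arctan ((B - A) * (X s * Y s) / (A * X s ^ 2 + B * Y s ^ 2)))
      (G A B (X t) (Y t)) t := by
  have m1 := pos2 hA hB (h.symm ▸ h0 : 0 < X t ^ 2 + Y t ^ 2)
  have m2 := pos2 (pow_pos hA 2) (pow_pos hB 2) (h.symm ▸ h0 : 0 < X t ^ 2 + Y t ^ 2)
  have d1 := hX.fun_mul hY
  have d2 := ((hX.fun_pow 2).const_mul A).fun_add ((hY.fun_pow 2).const_mul B)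
  have d3 := ((d1.const_mul (B - A)).fun_div d2 m1.ne').arctan
  have d4 := ((((hasDerivAt_id t).const_mul (ρ * (A - B) ^ 2 / 2)).fun_sub
    (d1.const_mul ((A ^ 2 - B ^ 2) / 4))).fun_sub (d3.const_mul (A * B * ρ / 2)))
  refine d4.congr_deriv ?_
  have e : 1 + ((B - A) * (X t * Y t) / (A * X t ^ 2 + B * Y t ^ 2)) ^ 2 =
      (A ^ 2 * X t ^ 2 + B ^ 2 * Y t ^ 2) * (X t ^ 2 + Y t ^ 2) /
        (A * X t ^ 2 + B * Y t ^ 2) ^ 2 := by
    field_simp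
    ring
  have m3 : X t ^ 2 + Y t ^ 2 ≠ 0 := h.symm ▸ h0.ne'
  rw [e, ← h, G]
  generalize X t = x at *
  generalize Y t = y at *
  simp only [Nat.cast_ofNat, Nat.add_one_sub_one, pow_one]
  have e2 : (B - A) * (-2 * y * y + x * (2 * x)) * (A * x ^ 2 + B * y ^ 2) - (B - A) * (x * y) *
      (A * (2 * x * (-2 * y)) + B * (2 * y * (2 * x))) =
        2 * (B - A) * (A * x ^ 2 - B * y ^ 2) * (x ^ 2 + y ^ 2) := by ring
  have e3 : ∀ M D r N : ℝ, M ≠ 0 → r ≠ 0 → 1 / (D * r / M ^ 2) * (N * r / M ^ 2) = N / D :=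
    fun M D r N _ _ => by field_simp
  rw [e2, e3 _ _ _ _ m1.ne' m3, eq_div_iff m2.ne', sub_mul, mul_assoc (A * B * _ / 2),
    div_mul_cancel₀ _ m2.ne']
  ring

theorem circ (hA : 0 < A) (hB : 0 < B) (x y : ℝ) :
    ∫ t in (0 : ℝ)..π, G A B (x * cos (2 * t) + y * sin (2 * t))
      (x * sin (2 * t) - y * cos (2 * t)) = π * ((x ^ 2 + y ^ 2) * (A - B) ^ 2 / 2) := by
  rcases (show 0 ≤ x ^ 2 + y ^ 2 by positivity).eq_or_lt with h | h
  · have hx : x = 0 := by nlinarith [sq_nonneg x, sq_nonneg y]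
    have hy : y = 0 := by nlinarith [sq_nonneg x, sq_nonneg y]
    simp [hx, hy, G]
  have c : ∀ t : ℝ, HasDerivAt (fun s => cos (2 * s)) (-sin (2 * t) * 2) t := fun t => by
    simpa using ((hasDerivAt_id t).const_mul 2).cos
  have s : ∀ t : ℝ, HasDerivAt (fun s => sin (2 * s)) (cos (2 * t) * 2) t := fun t => by
    simpa using ((hasDerivAt_id t).const_mul 2).sin
  have k := fun t : ℝ => der hA hB (X := fun t => x * cos (2 * t) + y * sin (2 * t))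
    (Y := fun t => x * sin (2 * t) - y * cos (2 * t)) (t := t) (ρ := x ^ 2 + y ^ 2)
    ((((c t).const_mul x).fun_add ((s t).const_mul y)).congr_deriv (by ring))
    ((((s t).const_mul x).fun_sub ((c t).const_mul y)).congr_deriv (by ring))
    (by nlinarith [sin_sq_add_cos_sq (2 * t)]) h
  rw [intervalIntegral.integral_eq_sub_of_hasDerivAt (fun t _ => k t)
    (intervalIntegral.intervalIntegrable_deriv_of_nonneg
      (fun t _ => (k t).continuousAt.continuousWithinAt) (fun t _ => k t) fun t _ => G_nn _ _ _ _)]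
  simp only [cos_two_pi, sin_two_pi, mul_zero, cos_zero, sin_zero]
  ring

variable {n : ℕ}

theorem refl {p q : E n} (hp : ‖p‖ = 1) (hq : ‖q‖ = 1) (hpq : ⟪p, q⟫ = 0) (t : ℝ) :
    ∃ R : E n ≃ₗᵢ[ℝ] E n, ∀ v, ⟪R v, p⟫ = ⟪v, p⟫ * cos (2 * t) + ⟪v, q⟫ * sin (2 * t) ∧
      ⟪R v, q⟫ = ⟪v, p⟫ * sin (2 * t) - ⟪v, q⟫ * cos (2 * t) := by
  have pp : ⟪p, p⟫ = 1 := by rw [real_inner_self_eq_norm_sq, hp, one_pow]
  have qq : ⟪q, q⟫ = 1 := by rw [real_inner_self_eq_norm_sq, hq, one_pow]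
  have qp : ⟪q, p⟫ = 0 := by rw [real_inner_comm, hpq]
  have h1 : ‖cos t • p + sin t • q‖ ^ 2 = 1 := by
    rw [← real_inner_self_eq_norm_sq]
    simp only [inner_add_left, inner_add_right, real_inner_smul_left, real_inner_smul_right, pp,
      qq, qp, hpq]
    nlinarith [sin_sq_add_cos_sq t]
  refine ⟨(ℝ ∙ (cos t • p + sin t • q)).reflection, fun v => ?_⟩
  rw [Submodule.reflection_singleton_apply]
  simp only [RCLike.ofReal_real_eq_id, id, h1, div_one, two_smul, inner_sub_left, inner_add_left,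
    real_inner_smul_left, pp, qq, qp, hpq, cos_two_mul, sin_two_mul, real_inner_comm v p,
    real_inner_comm v q]
  constructor
  · ring
  · linear_combination 2 * ⟪v, q⟫ * sin_sq_add_cos_sq t

/-- The mean of the contribution of a pair of directions. -/
theorem ang (μ : Measure (E n)) [IsFiniteMeasure μ]
    (hinv : ∀ R : E n ≃ₗᵢ[ℝ] E n, MeasurePreserving R μ μ)
    (hiso : ∀ a b : E n, ∫ w, ⟪‖w‖⁻¹ • w, a⟫ * ⟪‖w‖⁻¹ • w, b⟫ ∂μ = ⟪a, b⟫)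
    {p q : E n} (hp : ‖p‖ = 1) (hq : ‖q‖ = 1) (hpq : ⟪p, q⟫ = 0) (hA : 0 < A) (hB : 0 < B) :
    Integrable (fun w : E n => G A B ⟪‖w‖⁻¹ • w, p⟫ ⟪‖w‖⁻¹ • w, q⟫) μ ∧
      ∫ w, G A B ⟪‖w‖⁻¹ • w, p⟫ ⟪‖w‖⁻¹ • w, q⟫ ∂μ = (A - B) ^ 2 := by
  have b1 : ∀ (w a : E n), ‖a‖ = 1 → |⟪‖w‖⁻¹ • w, a⟫| ≤ 1 := fun w a h =>
    (abs_real_inner_le_norm _ _).trans (by rw [h, mul_one]; exact DZJ.hat_le w)
  have b2 : ∀ x y : ℝ, |y| ≤ 2 → ‖G A B x y‖ ≤ (A ^ 2 - B ^ 2) ^ 2 / A ^ 2 * 2 ^ 2 :=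
    fun x y h => by
      rw [norm_of_nonneg (G_nn _ _ _ _)]
      exact (G_le hA B x y).trans (mul_le_mul_of_nonneg_left (sq_le_sq' (abs_le.1 h).1
        (abs_le.1 h).2) (by positivity))
  refine ⟨Integrable.of_bound (Measurable.aestronglyMeasurable (by unfold G; fun_prop)) _
    (.of_forall fun w => b2 _ _ ((b1 w q hq).trans one_le_two)), ?_⟩
  have h1 : ∀ t : ℝ, ∫ w, G A B (⟪‖w‖⁻¹ • w, p⟫ * cos (2 * t) + ⟪‖w‖⁻¹ • w, q⟫ * sin (2 * t))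
      (⟪‖w‖⁻¹ • w, p⟫ * sin (2 * t) - ⟪‖w‖⁻¹ • w, q⟫ * cos (2 * t)) ∂μ =
        ∫ w, G A B ⟪‖w‖⁻¹ • w, p⟫ ⟪‖w‖⁻¹ • w, q⟫ ∂μ := fun t => by
    obtain ⟨R, hR⟩ := refl hp hq hpq t
    rw [← (hinv R).integral_comp R.toHomeomorph.measurableEmbedding
      fun w => G A B ⟪‖w‖⁻¹ • w, p⟫ ⟪‖w‖⁻¹ • w, q⟫]
    simp only [LinearIsometryEquiv.norm_map, ← map_smul, (hR _).1, (hR _).2]
  have : IsFiniteMeasure (volume.restrict (uIoc (0 : ℝ) π)) :=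
    isFiniteMeasure_restrict.2 (by simp [uIoc])
  have h2 := intervalIntegral_integral_swap (μ := μ) (a := 0) (b := π)
    (f := fun t (w : E n) => G A B (⟪‖w‖⁻¹ • w, p⟫ * cos (2 * t) + ⟪‖w‖⁻¹ • w, q⟫ * sin (2 * t))
      (⟪‖w‖⁻¹ • w, p⟫ * sin (2 * t) - ⟪‖w‖⁻¹ • w, q⟫ * cos (2 * t)))
    (Integrable.of_bound (Measurable.aestronglyMeasurable
      (by unfold G Function.uncurry; fun_prop)) _ (.of_forall fun z => b2 _ _ (by
        refine (abs_sub _ _).trans ?_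
        rw [abs_mul, abs_mul]
        linarith [mul_le_one₀ (b1 z.2 p hp) (abs_nonneg _) (abs_sin_le_one (2 * z.1)),
          mul_le_one₀ (b1 z.2 q hq) (abs_nonneg _) (abs_cos_le_one (2 * z.1))])))
  simp only [h1, circ hA hB, intervalIntegral.integral_const, sub_zero, smul_eq_mul,
    integral_const_mul, integral_div, integral_mul_const] at h2
  simp only [sq ⟪_, p⟫, sq ⟪_, q⟫] at h2
  rw [integral_add (DZJ.hat_int μ p p) (DZJ.hat_int μ q q), hiso, hiso,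
    real_inner_self_eq_norm_sq, real_inner_self_eq_norm_sq, hp, hq] at h2
  have h3 := mul_left_cancel₀ pi_ne_zero h2
  linarith

end Pool.Agent.MP_3ee8cb_gt.DQK
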